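import Pool.Agent.ANO3.Sys.Interp
import Pool.Agent.ANO5.A2.Dyn.Deck

/-!
# ANO5, module Sys: equivariant interpolation

As `Pool.Agent.ANO3.Sys.Interp`: `interp G₀ G t x` is the equivariant interpolation `ANO3.hyp t` in
the coordinates in `ℍ` and the point on the geodesic `Fib.geo t` in `W`.
-/

set_option autoImplicit false

open scoped UpperHalfPlane MatrixGroups
open Set Filter Topology

namespace Pool.Agent.ANO5.A3

open Pool.Agent.ANO3 Pool.Agent.ANO5.A1 Pool.Agent.ANO5.A2

variable [Fib] {r : ℕ}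

/-- Equivariant interpolation of two maps. -/
noncomputable def interp (G₀ G : X r → X r) (t : unitInterval) (x : X r) : X r :=
  (fun i => hyp t ((G₀ x).1 i) ((G x).1 i), Fib.geo t (G₀ x).2 (G x).2)

omit [Fib] in
private theorem hyp_cont_Interp :
    Continuous (fun q : unitInterval × ℍ × ℍ => hyp q.1 q.2.1 q.2.2) :=
  exists_hyp.choose_spec.1

omit [Fib] in
private theorem hyp_zero_Interp (z w : ℍ) : hyp 0 z w = z := exists_hyp.choose_spec.2.1 z w

omit [Fib] in
private theorem hyp_one_Interp (z w : ℍ) : hyp 1 z w = w := exists_hyp.choose_spec.2.2.1 z w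

omit [Fib] in
private theorem hyp_smul_Interp (t : unitInterval) (γ : SL(2, ℝ)) (z w : ℍ) :
    hyp t (γ • z) (γ • w) = γ • hyp t z w := exists_hyp.choose_spec.2.2.2 t γ z w

theorem interp_zero (G₀ G : X r → X r) (x : X r) : interp G₀ G 0 x = G₀ x := by
  unfold interp
  refine Prod.ext (funext fun i => ?_) ?_
  · exact hyp_zero_Interp _ _
  · exact Fib.geo_zero _ _

theorem interp_one (G₀ G : X r → X r) (x : X r) : interp G₀ G 1 x = G x := by
  unfold interp
  refine Prod.ext (funext fun i => ?_) ?_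
  · exact hyp_one_Interp _ _
  · exact Fib.geo_one _ _

theorem continuous_interp {G₀ G : X r → X r} (h₀ : Continuous G₀) (h : Continuous G) :
    Continuous fun q : unitInterval × X r => interp G₀ G q.1 q.2 := by
  unfold interp
  have h1 : Continuous fun q : unitInterval × X r => G₀ q.2 := h₀.comp continuous_snd
  have h2 : Continuous fun q : unitInterval × X r => G q.2 := h.comp continuous_snd
  have ht : Continuous fun q : unitInterval × X r => ((q.1 : unitInterval) : ℝ) :=
    continuous_subtype_val.comp continuous_fst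
  refine Continuous.prodMk ?_ ?_
  · refine continuous_pi fun i => ?_
    exact hyp_cont_Interp.comp (continuous_fst.prodMk
      (((continuous_apply i).comp (continuous_fst.comp h1)).prodMk
        ((continuous_apply i).comp (continuous_fst.comp h2))))
  · exact Fib.continuous_geo.comp (ht.prodMk
      ((continuous_snd.comp h1).prodMk (continuous_snd.comp h2)))

theorem interp_comp {S : Fin r → ClosedSurface} {G₀ G : X r → X r} {g g' : X r → X r}
    (hg' : IsDeck S g') (h₀ : G₀ ∘ g = g' ∘ G₀) (h : G ∘ g = g' ∘ G) (t : unitInterval)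
    (x : X r) : interp G₀ G t (g x) = g' (interp G₀ G t x) := by
  obtain ⟨γ, δ, -, hδ, hgv⟩ := hg'
  have e1 : G₀ (g x) = g' (G₀ x) := congrFun h₀ x
  have e2 : G (g x) = g' (G x) := congrFun h x
  unfold interp
  rw [e1, e2, hgv, hgv, hgv]
  refine Prod.ext (funext fun i => ?_) ?_
  · exact hyp_smul_Interp _ _ _ _
  · exact Fib.geo_inv δ hδ _ _ _

/-- The interpolation stays at bounded distance from the first map (all coordinates). -/
theorem bdd_interp_all {S : Fin r → ClosedSurface} {G₀ G : X r → X r} (h₀ : Continuous G₀)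
    (h : Continuous G) (hom : Homotopic S G₀ G) : ∃ C : ℝ, ∀ (t : unitInterval) (x : X r),
      dist (interp G₀ G t x) (G₀ x) ≤ C := by
  obtain ⟨K, hK, hKg⟩ := Dyn.deck_cocompact S
  have hc : Continuous fun q : unitInterval × X r =>
      dist (interp G₀ G q.1 q.2) (G₀ q.2) :=
    (continuous_interp h₀ h).dist (h₀.comp continuous_snd)
  obtain ⟨C, hC⟩ := ((isCompact_univ (X := unitInterval)).prod hK).exists_bound_of_continuousOn
    hc.continuousOn
  refine ⟨C, fun t x => ?_⟩
  obtain ⟨g, hg, hgx⟩ := hKg x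
  obtain ⟨g', hg', e₀, e⟩ := hom g hg
  have h1 := hC (t, g x) ⟨mem_univ _, hgx⟩
  rw [Real.norm_of_nonneg dist_nonneg] at h1
  have e1 : G₀ (g x) = g' (G₀ x) := congrFun e₀ x
  change dist (interp G₀ G t (g x)) (G₀ (g x)) ≤ C at h1
  rw [interp_comp hg' e₀ e, e1, (Dyn.IsDeck.isometry hg').dist_eq] at h1
  exact h1

theorem bdd_interp {S : Fin r → ClosedSurface} {G₀ G : X r → X r} (h₀ : Continuous G₀)
    (h : Continuous G) (hom : Homotopic S G₀ G) : ∃ C : ℝ, ∀ (t : unitInterval) (x : X r)
      (i : Fin r), dist ((interp G₀ G t x).1 i) ((G₀ x).1 i) ≤ C := by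
  obtain ⟨C, hC⟩ := bdd_interp_all h₀ h hom
  refine ⟨C, fun t x i => le_trans ?_ (hC t x)⟩
  exact (dist_le_pi_dist (interp G₀ G t x).1 (G₀ x).1 i).trans (le_max_left _ _)

theorem bdd_interp_snd {S : Fin r → ClosedSurface} {G₀ G : X r → X r} (h₀ : Continuous G₀)
    (h : Continuous G) (hom : Homotopic S G₀ G) : ∃ C : ℝ, ∀ (t : unitInterval) (x : X r),
      dist (interp G₀ G t x).2 (G₀ x).2 ≤ C := by
  obtain ⟨C, hC⟩ := bdd_interp_all h₀ h hom
  exact ⟨C, fun t x => (le_max_right _ _).trans (hC t x)⟩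

/-- Every deck transformation is the image of a deck transformation. -/
def Surj (S : Fin r → ClosedSurface) (G : X r → X r) : Prop :=
  ∀ g, IsDeck S g → ∃ g', IsDeck S g' ∧ G ∘ g' = g ∘ G

private theorem both_Interp {S : Fin r → ClosedSurface} {G₀ G : X r ≃ₜ X r}
    (hom : Homotopic S G₀ G) (hG : Surj S G) {g : X r → X r} (hg : IsDeck S g) :
    ∃ g', IsDeck S g' ∧ G₀ ∘ g' = g ∘ G₀ ∧ G ∘ g' = g ∘ G := by
  obtain ⟨g', hg', e⟩ := hG g hg
  obtain ⟨g'', -, e₀, e1⟩ := hom g' hg'
  have h1 : g'' = g := by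
    funext x
    have h2 := congrFun (e1.symm.trans e) (G.symm x)
    simpa using h2
  rw [h1] at e₀
  exact ⟨g', hg', e₀, e⟩

private theorem symm_Interp {G : X r ≃ₜ X r} {g g' : X r → X r}
    (h : G ∘ g' = g ∘ G) : G.symm ∘ g = g' ∘ G.symm := by
  funext x
  have h1 := congrFun h (G.symm x)
  simp only [Function.comp_apply, Homeomorph.apply_symm_apply] at h1
  simp only [Function.comp_apply]
  rw [← h1, Homeomorph.symm_apply_apply]

theorem homotopic_symm {S : Fin r → ClosedSurface} {G₀ G : X r ≃ₜ X r}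
    (hom : Homotopic S G₀ G) (hG : Surj S G) : Homotopic S G₀.symm G.symm := by
  intro g hg
  obtain ⟨g', hg', e₀, e⟩ := both_Interp hom hG hg
  exact ⟨g', hg', symm_Interp e₀, symm_Interp e⟩

theorem surj_symm {S : Fin r → ClosedSurface} {G₀ G : X r ≃ₜ X r}
    (hom : Homotopic S G₀ G) : Surj S G.symm := by
  intro g hg
  obtain ⟨g', hg', -, e⟩ := hom g hg
  exact ⟨g', hg', symm_Interp e⟩

theorem surj_left {S : Fin r → ClosedSurface} {G₀ G : X r ≃ₜ X r}
    (hom : Homotopic S G₀ G) (hG : Surj S G) : Surj S G₀ := by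
  intro g hg
  obtain ⟨g', hg', e₀, -⟩ := both_Interp hom hG hg
  exact ⟨g', hg', e₀⟩

end Pool.Agent.ANO5.A3
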