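import Pool.Agent.ANO3.Sys.Defs
import Pool.Agent.ANO3.Sys.Lim
import Pool.Agent.ANO5.A3.Sys.Interp

/-!
# ANO5, module Sys: the product situation (definitions for all modules)

As `Pool.Agent.ANO3.Sys.Setting` with `X r = ℍ^r × W`: `T₀`, `T` are homeomorphisms of `X r`, `T₀`
covers the maps `f_i` and `T` is in the same homotopy class (`Setting`). `pX i` and `pI i` are the
projections of `X r` and `[0, 1] × X r` to the `i`-th factor, `RI T₀ T` is the family of maps from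
`T₀` (`t = 0`) to `T` (`t = 1`).

`DU F T i`, `DS F T i`: the pseudo-distances on `ℍ ⊕ X r` (for `T` and for `T⁻¹`);
`DUI F T₀ T i`, `DSI F T₀ T i`: those on `ℍ ⊕ ([0, 1] × X r)`.
`su F T i w`, `ss F T i w : X r → ℝ` and `suI`, `ssI`: the signed distances of a point `w` of `ℍ`.
`NN F T w' w''`: the points of `X r` in the u-leaves of the `w' i` and in the s-leaves of the
`w'' i`.
-/

set_option autoImplicit false

open scoped UpperHalfPlane MatrixGroups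
open Set Filter Topology

namespace Pool.Agent.ANO5.A3

open Pool.Agent.ANO3 Pool.Agent.ANO3.Tree Pool.Agent.ANO5.A1 Pool.Agent.ANO5.A2

variable [Fib] {r : ℕ}

/-- The situation: `T₀` covers the maps `f_i`, `T` is in the same homotopy class. -/
structure Setting (S : Fin r → SurfaceMap) (T₀ T : X r ≃ₜ X r) : Prop where
  cover : ∀ (i : Fin r) (x : X r), (T₀ x).1 i = (S i).f (x.1 i)
  hom : Homotopic (surf S) T₀ T
  surj : Surj (surf S) T

/-- The deck transformation with the components `γ i` and `δ`. -/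
noncomputable def dk (γ : Fin r → SL(2, ℝ)) (δ : Equiv.Perm Fib.W) (x : X r) : X r :=
  (fun i => γ i • x.1 i, δ x.2)

omit [Fib] in
/-- `γ` is a family of elements of the surface groups. -/
def InΓ (S : Fin r → SurfaceMap) (γ : Fin r → SL(2, ℝ)) : Prop := ∀ i, γ i ∈ (S i).Γ

/-- The projection of `X r` to the `i`-th surface. -/
def pX (i : Fin r) (x : X r) : ℍ := x.1 i

/-- The projection of `[0, 1] × X r` to the `i`-th surface. -/
def pI (i : Fin r) (y : unitInterval × X r) : ℍ := y.2.1 i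

/-- The family of maps from `T₀` to `T`. -/
noncomputable def RI (T₀ T : X r → X r) (y : unitInterval × X r) :
    unitInterval × X r := (y.1, interp T₀ T y.1 y.2)

/-- The symmetries of `X r` over the `i`-th surface. -/
def GX (S : Fin r → SurfaceMap) (i : Fin r) : Set (SL(2, ℝ) × (X r → X r)) :=
  {q | ∃ (γ : Fin r → SL(2, ℝ)) (δ : Equiv.Perm Fib.W), InΓ S γ ∧ δ ∈ Fib.Γ ∧ q = (γ i, dk γ δ)}

/-- The symmetries of `[0, 1] × X r` over the `i`-th surface. -/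
def GI (S : Fin r → SurfaceMap) (i : Fin r) :
    Set (SL(2, ℝ) × (unitInterval × X r → unitInterval × X r)) :=
  {q | ∃ (γ : Fin r → SL(2, ℝ)) (δ : Equiv.Perm Fib.W), InΓ S γ ∧ δ ∈ Fib.Γ ∧
    q = (γ i, Prod.map id (dk γ δ))}

/-- `T' = g T^m` with the corresponding lifts `H i` of the `m`-th powers of the surface maps. -/
def IsLift (S : Fin r → SurfaceMap) (T : X r ≃ₜ X r) (m : ℕ) (T' : X r ≃ₜ X r)
    (H : Fin r → ℍ ≃ₜ ℍ) : Prop :=
  ∃ (γ : Fin r → SL(2, ℝ)) (δ : Equiv.Perm Fib.W), InΓ S γ ∧ δ ∈ Fib.Γ ∧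
    (∀ x, T' x = dk γ δ (T^[m] x)) ∧ ∀ i z, H i z = γ i • (S i).f^[m] z

variable {S : Fin r → SurfaceMap} (F : ∀ i, Flat (S i)) (T₀ T : X r ≃ₜ X r)

/-- The first pseudo-distance on `ℍ ⊕ X r`, for the `i`-th surface. -/
noncomputable def DU (i : Fin r) : ℍ ⊕ X r → ℍ ⊕ X r → ℝ := Dis (F i) (pX i) T

/-- The second pseudo-distance on `ℍ ⊕ X r`, for the `i`-th surface. -/
noncomputable def DS (i : Fin r) : ℍ ⊕ X r → ℍ ⊕ X r → ℝ := Dis (F i).rev (pX i) T.symm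

/-- The first pseudo-distance on `ℍ ⊕ ([0, 1] × X r)`. -/
noncomputable def DUI (i : Fin r) :
    ℍ ⊕ (unitInterval × X r) → ℍ ⊕ (unitInterval × X r) → ℝ := Dis (F i) (pI i) (RI T₀ T)

/-- The second pseudo-distance on `ℍ ⊕ ([0, 1] × X r)`. -/
noncomputable def DSI (i : Fin r) :
    ℍ ⊕ (unitInterval × X r) → ℍ ⊕ (unitInterval × X r) → ℝ :=
  Dis (F i).rev (pI i) (RI T₀.symm T.symm)

/-- The first signed distance of `w`. -/
noncomputable def su (i : Fin r) (w : ℍ) (x : X r) : ℝ := sgn (F i) (pX i) T w (Sum.inr x)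

/-- The second signed distance of `w`. -/
noncomputable def ss (i : Fin r) (w : ℍ) (x : X r) : ℝ :=
  sgn (F i).rev (pX i) T.symm w (Sum.inr x)

/-- The family of the first signed distances of `w`. -/
noncomputable def suI (i : Fin r) (w : ℍ) (y : unitInterval × X r) : ℝ :=
  sgn (F i) (pI i) (RI T₀ T) w (Sum.inr y)

/-- The family of the second signed distances of `w`. -/
noncomputable def ssI (i : Fin r) (w : ℍ) (y : unitInterval × X r) : ℝ :=
  sgn (F i).rev (pI i) (RI T₀.symm T.symm) w (Sum.inr y)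

/-- The points in the u-leaves of the `w' i` and in the s-leaves of the `w'' i`. -/
def NN (w' w'' : Fin r → ℍ) : Set (X r) :=
  {x | ∀ i, DU F T i (Sum.inl (w' i)) (Sum.inr x) = 0 ∧
    DS F T i (Sum.inl (w'' i)) (Sum.inr x) = 0}

variable {T₀ T}

theorem isDeck_dk {γ : Fin r → SL(2, ℝ)} (hγ : InΓ S γ) {δ : Equiv.Perm Fib.W}
    (hδ : δ ∈ Fib.Γ) : IsDeck (surf S) (dk γ δ) := by
  exact ⟨γ, δ, hγ, hδ, fun _ => rfl⟩

theorem isDeck_iff {g : X r → X r} : IsDeck (surf S) g ↔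
    ∃ (γ : Fin r → SL(2, ℝ)) (δ : Equiv.Perm Fib.W), InΓ S γ ∧ δ ∈ Fib.Γ ∧ g = dk γ δ := by
  constructor
  · rintro ⟨γ, δ, hγ, hδ, h⟩
    exact ⟨γ, δ, hγ, hδ, funext h⟩
  · rintro ⟨γ, δ, hγ, hδ, rfl⟩
    exact isDeck_dk hγ hδ

theorem Setting.hom_dk (h : Setting S T₀ T) {γ : Fin r → SL(2, ℝ)} (hγ : InΓ S γ)
    {δ : Equiv.Perm Fib.W} (hδ : δ ∈ Fib.Γ) :
    ∃ (γ' : Fin r → SL(2, ℝ)) (δ' : Equiv.Perm Fib.W), InΓ S γ' ∧ δ' ∈ Fib.Γ ∧
      T₀ ∘ dk γ δ = dk γ' δ' ∘ T₀ ∧ T ∘ dk γ δ = dk γ' δ' ∘ T ∧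
      ∀ i, ∀ z : ℍ, (S i).f (γ i • z) = γ' i • (S i).f z := by
  obtain ⟨g', hg', h1, h2⟩ := h.hom (dk γ δ) (isDeck_dk hγ hδ)
  obtain ⟨γ', δ', hγ', hδ', rfl⟩ := isDeck_iff.1 hg'
  refine ⟨γ', δ', hγ', hδ', h1, h2, fun i z => ?_⟩
  have h3 := congrArg (fun x : X r => x.1 i)
    (congrFun h1 ((fun _ => z, Classical.arbitrary Fib.W) : X r))
  simp only [Function.comp_apply] at h3
  rw [h.cover] at h3
  refine h3.trans ?_
  show γ' i • (T₀ ((fun _ => z, Classical.arbitrary Fib.W) : X r)).1 i = γ' i • (S i).f z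
  rw [h.cover]

theorem dk_one (x : X r) : dk (fun _ => 1) 1 x = x := by
  unfold dk
  refine Prod.ext (funext fun i => ?_) rfl
  exact one_smul _ _

theorem dk_mul (γ γ' : Fin r → SL(2, ℝ)) (δ δ' : Equiv.Perm Fib.W) (x : X r) :
    dk (fun i => γ i * γ' i) (δ * δ') x = dk γ δ (dk γ' δ' x) := by
  unfold dk
  refine Prod.ext (funext fun i => ?_) rfl
  exact mul_smul _ _ _

theorem dk_inv (γ : Fin r → SL(2, ℝ)) (δ : Equiv.Perm Fib.W) (x : X r) :
    dk (fun i => (γ i)⁻¹) δ⁻¹ (dk γ δ x) = x := by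
  unfold dk
  refine Prod.ext (funext fun i => ?_) ?_
  · exact inv_smul_smul _ _
  · exact δ.symm_apply_apply _

theorem dk_inv' (γ : Fin r → SL(2, ℝ)) (δ : Equiv.Perm Fib.W) (x : X r) :
    dk γ δ (dk (fun i => (γ i)⁻¹) δ⁻¹ x) = x := by
  unfold dk
  refine Prod.ext (funext fun i => ?_) ?_
  · exact smul_inv_smul _ _
  · exact δ.apply_symm_apply _

theorem cocompact_dk (S : Fin r → SurfaceMap) : ∃ K : Set (X r),
    IsCompact K ∧ ∀ x, ∃ (γ : Fin r → SL(2, ℝ)) (δ : Equiv.Perm Fib.W), InΓ S γ ∧ δ ∈ Fib.Γ ∧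
      dk γ δ x ∈ K := by
  obtain ⟨K, hK, h⟩ := Dyn.deck_cocompact (surf S)
  refine ⟨K, hK, fun x => ?_⟩
  obtain ⟨g, hg, hx⟩ := h x
  obtain ⟨γ, δ, hγ, hδ, rfl⟩ := isDeck_iff.1 hg
  exact ⟨γ, δ, hγ, hδ, hx⟩

theorem Setting.symm (h : Setting S T₀ T) : Setting (fun i => rev (S i)) T₀.symm T.symm := by
  refine ⟨fun i x => ?_, homotopic_symm h.hom h.surj, surj_symm h.hom⟩
  have h1 := h.cover i (T₀.symm x)
  rw [Homeomorph.apply_symm_apply] at h1
  show (T₀.symm x).1 i = (S i).f.symm (x.1 i)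
  rw [h1, Homeomorph.symm_apply_apply]

theorem Setting.isSys_X (h : Setting S T₀ T) (i : Fin r) : IsSys (S i) (pX i) T := by
  obtain ⟨C, hC⟩ := bdd_interp T₀.continuous T.continuous h.hom
  refine ⟨(continuous_apply i).comp continuous_fst, T.continuous, C, fun x => ?_⟩
  have h1 := hC 1 x i
  rw [interp_one, h.cover] at h1
  exact h1

theorem Setting.isSym_X (h : Setting S T₀ T) (i : Fin r) :
    IsSym (S i) (pX i) T (GX S i) := by
  constructor
  · rintro _ ⟨γ, δ, hγ, hδ, rfl⟩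
    exact hγ i
  · rintro _ ⟨γ, δ, hγ, hδ, rfl⟩ x
    rfl
  · rintro _ ⟨γ, δ, hγ, hδ, rfl⟩
    obtain ⟨γ', δ', hγ', hδ', -, h2, h3⟩ := h.hom_dk hγ hδ
    exact ⟨(γ' i, dk γ' δ'), ⟨γ', δ', hγ', hδ', rfl⟩, h3 i, fun x => congrFun h2 x⟩
  · exact ⟨(1, dk (fun _ => 1) 1), ⟨fun _ => 1, 1,
      fun i => (S i).Γ.one_mem, Fib.Γ.one_mem, rfl⟩, fun z => one_smul _ z, dk_one⟩
  · rintro _ ⟨γ, δ, hγ, hδ, rfl⟩ _ ⟨γ', δ', hγ', hδ', rfl⟩
    exact ⟨(γ i * γ' i, dk (fun i => γ i * γ' i) (δ * δ')),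
      ⟨_, _, fun i => (S i).Γ.mul_mem (hγ i) (hγ' i), Fib.Γ.mul_mem hδ hδ', rfl⟩,
      fun z => mul_smul _ _ z, dk_mul γ γ' δ δ'⟩
  · rintro _ ⟨γ, δ, hγ, hδ, rfl⟩
    exact ⟨((γ i)⁻¹, dk (fun i => (γ i)⁻¹) δ⁻¹),
      ⟨_, _, fun i => (S i).Γ.inv_mem (hγ i), Fib.Γ.inv_mem hδ, rfl⟩,
      fun z => inv_smul_smul _ z, dk_inv γ δ⟩
  · obtain ⟨K, hK, hx⟩ := cocompact_dk S
    refine ⟨K, hK, fun x => ?_⟩
    obtain ⟨γ, δ, hγ, hδ, h1⟩ := hx x
    exact ⟨(γ i, dk γ δ), ⟨γ, δ, hγ, hδ, rfl⟩, h1⟩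

theorem Setting.isSys_I (h : Setting S T₀ T) (i : Fin r) : IsSys (S i) (pI i) (RI T₀ T) := by
  obtain ⟨C, hC⟩ := bdd_interp T₀.continuous T.continuous h.hom
  refine ⟨(continuous_apply i).comp (continuous_fst.comp continuous_snd),
    continuous_fst.prodMk (continuous_interp T₀.continuous T.continuous), C, fun y => ?_⟩
  have h1 := hC y.1 y.2 i
  rw [h.cover] at h1
  exact h1

theorem Setting.isSym_I (h : Setting S T₀ T) (i : Fin r) :
    IsSym (S i) (pI i) (RI T₀ T) (GI S i) := by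
  constructor
  · rintro _ ⟨γ, δ, hγ, hδ, rfl⟩
    exact hγ i
  · rintro _ ⟨γ, δ, hγ, hδ, rfl⟩ x
    rfl
  · rintro _ ⟨γ, δ, hγ, hδ, rfl⟩
    obtain ⟨γ', δ', hγ', hδ', h1, h2, h3⟩ := h.hom_dk hγ hδ
    refine ⟨(γ' i, Prod.map id (dk γ' δ')), ⟨γ', δ', hγ', hδ', rfl⟩, h3 i, fun y => ?_⟩
    exact Prod.ext rfl (interp_comp (isDeck_dk hγ' hδ') h1 h2 y.1 y.2)
  · exact ⟨(1, Prod.map id (dk (fun _ => 1) 1)), ⟨fun _ => 1, 1,
      fun i => (S i).Γ.one_mem, Fib.Γ.one_mem, rfl⟩, fun z => one_smul _ z,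
      fun y => Prod.ext rfl (dk_one y.2)⟩
  · rintro _ ⟨γ, δ, hγ, hδ, rfl⟩ _ ⟨γ', δ', hγ', hδ', rfl⟩
    exact ⟨(γ i * γ' i, Prod.map id (dk (fun i => γ i * γ' i) (δ * δ'))),
      ⟨_, _, fun i => (S i).Γ.mul_mem (hγ i) (hγ' i), Fib.Γ.mul_mem hδ hδ', rfl⟩,
      fun z => mul_smul _ _ z, fun y => Prod.ext rfl (dk_mul γ γ' δ δ' y.2)⟩
  · rintro _ ⟨γ, δ, hγ, hδ, rfl⟩
    exact ⟨((γ i)⁻¹, Prod.map id (dk (fun i => (γ i)⁻¹) δ⁻¹)),
      ⟨_, _, fun i => (S i).Γ.inv_mem (hγ i), Fib.Γ.inv_mem hδ, rfl⟩,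
      fun z => inv_smul_smul _ z, fun y => Prod.ext rfl (dk_inv γ δ y.2)⟩
  · obtain ⟨K, hK, hx⟩ := cocompact_dk S
    refine ⟨univ ×ˢ K, isCompact_univ.prod hK, fun y => ?_⟩
    obtain ⟨γ, δ, hγ, hδ, h1⟩ := hx y.2
    exact ⟨(γ i, Prod.map id (dk γ δ)), ⟨γ, δ, hγ, hδ, rfl⟩, mem_univ _, h1⟩

/-- the versions for the inverse maps -/
theorem Setting.isSys_X' (h : Setting S T₀ T) (i : Fin r) :
    IsSys (rev (S i)) (pX i) T.symm := by
  exact h.symm.isSys_X i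

theorem Setting.isSym_X' (h : Setting S T₀ T) (i : Fin r) :
    IsSym (rev (S i)) (pX i) T.symm (GX S i) := by
  exact h.symm.isSym_X i

theorem Setting.isSys_I' (h : Setting S T₀ T) (i : Fin r) :
    IsSys (rev (S i)) (pI i) (RI T₀.symm T.symm) := by
  exact h.symm.isSys_I i

theorem Setting.isSym_I' (h : Setting S T₀ T) (i : Fin r) :
    IsSym (rev (S i)) (pI i) (RI T₀.symm T.symm) (GI S i) := by
  exact h.symm.isSym_I i

private theorem it_one_Setting (f : ℍ → ℍ) (G₀ G : X r → X r) (n : ℕ) (x : X r) :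
    (st f (RI G₀ G))^[n] (Sum.inr (1, x)) = Sum.inr (1, G^[n] x) := by
  induction n with
  | zero => rfl
  | succ n ih =>
    rw [Function.iterate_succ_apply', ih, Function.iterate_succ_apply']
    show Sum.inr (RI G₀ G (1, G^[n] x)) = _
    unfold RI
    rw [interp_one]

private theorem it_zero_Setting (f : ℍ → ℍ) (G₀ G : X r → X r) (n : ℕ) (x : X r) :
    (st f (RI G₀ G))^[n] (Sum.inr (0, x)) = Sum.inr (0, G₀^[n] x) := by
  induction n with
  | zero => rfl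
  | succ n ih =>
    rw [Function.iterate_succ_apply', ih, Function.iterate_succ_apply']
    show Sum.inr (RI G₀ G (0, G₀^[n] x)) = _
    unfold RI
    rw [interp_zero]

private theorem it_X_Setting (f : ℍ → ℍ) (G : X r → X r) (n : ℕ) (x : X r) :
    (st f G)^[n] (Sum.inr x) = Sum.inr (G^[n] x) := by
  induction n with
  | zero => rfl
  | succ n ih =>
    rw [Function.iterate_succ_apply', ih, Function.iterate_succ_apply']
    rfl

theorem Setting.cover_iterate (h : Setting S T₀ T) (i : Fin r) (n : ℕ) (x : X r) :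
    (T₀^[n] x).1 i = (S i).f^[n] (x.1 i) := by
  induction n with
  | zero => rfl
  | succ n ih =>
    rw [Function.iterate_succ_apply', Function.iterate_succ_apply', h.cover, ih]

theorem DUI_one (i : Fin r) (z : ℍ) (x : X r) :
    DUI F T₀ T i (Sum.inl z) (Sum.inr (1, x)) = DU F T i (Sum.inl z) (Sum.inr x) := by
  unfold DUI DU
  refine Dis_congr (F i) (fun n => ?_) (fun n => ?_)
  · rw [ap_inl, ap_inl]
  · unfold ap
    rw [it_one_Setting, it_X_Setting]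
    rfl

theorem DSI_one (i : Fin r) (z : ℍ) (x : X r) :
    DSI F T₀ T i (Sum.inl z) (Sum.inr (1, x)) = DS F T i (Sum.inl z) (Sum.inr x) := by
  exact DUI_one (S := fun i => rev (S i)) (fun i => (F i).rev) i z x

theorem DUI_zero (h : Setting S T₀ T) (i : Fin r) (z : ℍ) (x : X r) :
    DUI F T₀ T i (Sum.inl z) (Sum.inr (0, x)) = (F i).du z (x.1 i) := by
  unfold DUI Dis
  have h1 : ∀ n, ap (S i) (pI i) (RI T₀ T) n (Sum.inr (0, x)) = x.1 i := by
    intro n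
    unfold ap
    rw [it_zero_Setting]
    show (S i).f.symm^[n] ((T₀^[n] x).1 i) = x.1 i
    rw [h.cover_iterate i n x]
    exact Function.LeftInverse.iterate (f := (S i).f) (g := (S i).f.symm)
      (fun z => Homeomorph.symm_apply_apply (S i).f z) n (x.1 i)
  simp only [h1, ap_inl]
  exact tendsto_const_nhds.limUnder_eq

theorem DSI_zero (h : Setting S T₀ T) (i : Fin r) (z : ℍ) (x : X r) :
    DSI F T₀ T i (Sum.inl z) (Sum.inr (0, x)) = (F i).ds z (x.1 i) := by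
  exact DUI_zero (S := fun i => rev (S i)) (fun i => (F i).rev) h.symm i z x

theorem suI_one (i : Fin r) (w : ℍ) (x : X r) : suI F T₀ T i w (1, x) = su F T i w x := by
  have h1 := fun z => DUI_one F (T₀ := T₀) (T := T) i z x
  unfold DUI DU at h1
  unfold suI su sgn sdist side
  simp only [h1]

theorem ssI_one (i : Fin r) (w : ℍ) (x : X r) : ssI F T₀ T i w (1, x) = ss F T i w x := by
  exact suI_one (S := fun i => rev (S i)) (fun i => (F i).rev) i w x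

theorem suI_zero (h : Setting S T₀ T) (i : Fin r) (w : ℍ) (x : X r) :
    suI F T₀ T i w (0, x) = (F i).sg w (x.1 i) := by
  have h1 := fun z => DUI_zero F h i z x
  unfold DUI at h1
  unfold suI sgn Flat.sg sdist side
  simp only [h1]

theorem ssI_zero (h : Setting S T₀ T) (i : Fin r) (w : ℍ) (x : X r) :
    ssI F T₀ T i w (0, x) = (F i).rev.sg w (x.1 i) := by
  exact suI_zero (S := fun i => rev (S i)) (fun i => (F i).rev) h.symm i w x

theorem isCompact_box {K : Fin r → Set ℍ} (hK : ∀ i, IsCompact (K i)) {L : Set Fib.W}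
    (hL : IsCompact L) : IsCompact {x : X r | (∀ i, x.1 i ∈ K i) ∧ x.2 ∈ L} := by
  have h1 : {x : X r | (∀ i, x.1 i ∈ K i) ∧ x.2 ∈ L} = (univ.pi K) ×ˢ L := by
    ext x
    simp
  rw [h1]
  exact (isCompact_univ_pi hK).prod hL

end Pool.Agent.ANO5.A3
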